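import Pool.Agent.W203.WS.Stm

/-!
# Waring's problem with almost all shifts: sum minus integral
-/

set_option autoImplicit false

open MeasureTheory Finset

namespace Pool.Agent.W870.WS

open Pool.Agent.W203.WS

theorem e_sub (a b : ℝ) : ‖e a - e b‖ ≤ 2 * Real.pi * |a - b| := by
  have h1 : e a - e b = e b * (Complex.exp (Complex.I * ((2 * Real.pi * (a - b) : ℝ) : ℂ)) - 1) := by
    rw [e, e, mul_sub, ← Complex.exp_add, mul_one]
    congr 2
    push_cast
    ring
  have h2 : ‖e b‖ = 1 := by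
    rw [e, Complex.norm_exp]
    simp
  rw [h1, norm_mul, h2, one_mul]
  refine (Real.norm_exp_I_mul_ofReal_sub_one_le).trans ?_
  rw [Real.norm_eq_abs, abs_mul, abs_of_pos (by positivity : (0 : ℝ) < 2 * Real.pi)]

theorem e_cont (k : ℕ) (t : ℝ) : Continuous (fun u : ℝ => e (t * u ^ k)) := by
  unfold e
  fun_prop

theorem t_DF : S_DF := by
  intro k hk
  have hk0 : (0 : ℝ) < k := by exact_mod_cast hk
  refine ⟨6 * Real.pi * k * 5 ^ (k - 1), by positivity, ?_⟩
  intro P t θ hP hθ0 hθ1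
  have hP0 : (1 : ℝ) ≤ P := by exact_mod_cast hP
  have h1 : J1 k P t = ∑ x ∈ Ico P (4 * P), ∫ u in (x : ℝ)..((x + 1 : ℕ) : ℝ), e (t * u ^ k) := by
    rw [intervalIntegral.sum_integral_adjacent_intervals_Ico (a := fun n : ℕ => (n : ℝ)) (by omega)
      (fun x _ => (e_cont k t).intervalIntegrable _ _)]
    rw [J1]
    push_cast
    rfl
  have h2 : S k P t θ - J1 k P t = ∑ x ∈ Ico P (4 * P),
      ∫ u in (x : ℝ)..((x + 1 : ℕ) : ℝ), (e (t * ((x : ℝ) + θ) ^ k) - e (t * u ^ k)) := by
    rw [h1, S, ← Finset.sum_sub_distrib]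
    refine Finset.sum_congr rfl (fun x _ => ?_)
    rw [intervalIntegral.integral_sub (continuous_const.intervalIntegrable _ _)
      ((e_cont k t).intervalIntegrable _ _), intervalIntegral.integral_const]
    push_cast
    simp
  rw [h2]
  have h3 : ∀ x ∈ Ico P (4 * P),
      ‖∫ u in (x : ℝ)..((x + 1 : ℕ) : ℝ), (e (t * ((x : ℝ) + θ) ^ k) - e (t * u ^ k))‖
        ≤ 2 * Real.pi * (|t| * (k * (5 * (P : ℝ)) ^ (k - 1))) := by
    intro x hx
    rw [mem_Ico] at hx
    have hx1 : (x : ℝ) + 1 ≤ 4 * P := by exact_mod_cast hx.2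
    have hx0 : (0 : ℝ) ≤ x := Nat.cast_nonneg _
    have h4 := intervalIntegral.norm_integral_le_of_norm_le_const
      (f := fun u : ℝ => e (t * ((x : ℝ) + θ) ^ k) - e (t * u ^ k))
      (a := (x : ℝ)) (b := ((x + 1 : ℕ) : ℝ))
      (C := 2 * Real.pi * (|t| * (k * (5 * (P : ℝ)) ^ (k - 1)))) ?_
    · push_cast at h4 ⊢
      simpa using h4
    · intro u hu
      push_cast at hu
      rw [Set.uIoc_of_le (by linarith), Set.mem_Ioc] at hu
      refine (e_sub _ _).trans ?_
      refine mul_le_mul_of_nonneg_left ?_ (by positivity)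
      rw [← mul_sub, abs_mul]
      refine mul_le_mul_of_nonneg_left ?_ (abs_nonneg _)
      refine (abs_pow_sub_pow_le _ _ _).trans ?_
      have h5 : |(x : ℝ) + θ - u| ≤ 1 := by
        rw [abs_le]
        constructor <;> linarith [hu.1, hu.2]
      have h6 : max |(x : ℝ) + θ| |u| ≤ 5 * P := by
        refine max_le ?_ ?_
        · rw [abs_le]
          constructor <;> linarith [hu.1, hu.2]
        · rw [abs_le]
          constructor <;> linarith [hu.1, hu.2]
      have h7 : max |(x : ℝ) + θ| |u| ^ (k - 1) ≤ (5 * (P : ℝ)) ^ (k - 1) :=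
        pow_le_pow_left₀ (le_max_of_le_left (abs_nonneg _)) h6 _
      calc |(x : ℝ) + θ - u| * k * max |(x : ℝ) + θ| |u| ^ (k - 1)
          ≤ 1 * k * (5 * (P : ℝ)) ^ (k - 1) := by
            refine mul_le_mul (mul_le_mul_of_nonneg_right h5 hk0.le) h7 (by positivity)
              (by positivity)
        _ = _ := by ring
  refine (norm_sum_le_of_le _ h3).trans ?_
  rw [Finset.sum_const, Nat.card_Ico, nsmul_eq_mul]
  have h8 : ((4 * P - P : ℕ) : ℝ) = 3 * P := by
    have : 4 * P - P = 3 * P := by omega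
    rw [this]
    push_cast
    ring
  rw [h8]
  have h9 : (P : ℝ) ^ k = P * (P : ℝ) ^ (k - 1) := by
    rw [← pow_succ']
    congr 1
    omega
  rw [h9, mul_pow]
  apply le_of_eq
  ring

end Pool.Agent.W870.WS
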